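import Pool.Agent.P.MP_cf7202_gt.Final

/-! A curvature flow of a regular planar network with a blow-up limit of multiplicity two. -/

namespace Pool.Agent.Results.MP_cf7202_gt.MultiplicityTwo

open Set Function Pool.Agent.P.MP_cf7202_gt
open scoped ContDiff ENNReal

/-- There is a curvature flow of regular networks in a disc, smooth up to the initial time, with
singular time `T`, and a blow-up limit shrinker at a point `(x₀,T)` in which two different curves,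
both of infinite rescaled length, converge to the same half-line. -/
theorem result :
    ∃ (R T : ℝ) (ι : Type) (_ : Finite ι) (γ : ι → ℝ → ℝ → ℂ), 0 < R ∧ 0 < T ∧
      IsFlow (Metric.ball 0 R) γ T ∧
      (∀ i, ContDiffOn ℝ ∞ (uncurry (γ i)) (Ico 0 T ×ˢ Icc 0 1)) ∧
      (∀ i, ∀ t ∈ Ico 0 T, ∀ x ∈ Ioo (0 : ℝ) 1, γ i t x ∈ Metric.ball (0 : ℂ) R) ∧
      IsMaximal (Metric.ball 0 R) γ T ∧
      ∃ (x₀ : ℂ) (t : ℕ → ℝ) (c : ι → ℝ → ℂ) (ℓ : ι → ℝ≥0∞), IsBlowUp γ T x₀ t c ℓ ∧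
        ∃ i i', i ≠ i' ∧ ℓ i = ⊤ ∧ ℓ i' = ⊤ ∧
          ∃ r : ℝ, ∀ s : ℝ, c i s = ((r + s : ℝ) : ℂ) ∧ c i' s = ((r + s : ℝ) : ℂ) :=
  final

end Pool.Agent.Results.MP_cf7202_gt.MultiplicityTwo
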